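import Pool.Agent.Q88.DP.Final

/-!
MP_0f3a14_an, Q1 (negative answer): there is a real Banach space with an extreme point of its unit
ball which is a Delta-point but neither a ccs Delta-point nor a super Delta-point.
-/

namespace Pool.Agent.Results.MP_0f3a14_an.ExtremeDelta

open Q88.DP

theorem result :
    ∃ (X : Type) (_ : NormedAddCommGroup X) (_ : NormedSpace ℝ X) (_ : CompleteSpace X) (x : X),
      ‖x‖ = 1 ∧ x ∈ (Metric.closedBall (0 : X) 1).extremePoints ℝ ∧ IsDelta x ∧
        ¬ IsCcsDelta x ∧ ¬ IsSuperDelta x :=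
  exists_extreme_delta

end Pool.Agent.Results.MP_0f3a14_an.ExtremeDelta
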